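import Mathlib
import Pool.Agent.Q65.DirSumOp2

/-! # Hereditarily hypercyclic operators on countable locally convex direct sums -/

open Filter Topology DirectSum

namespace Pool.Agent.Results.MP_1b62a1_an.Hereditary

open Q65.DS

/-- `τ` is the topology of the locally convex direct sum of the normed spaces `E i`: the finest
(least, in Mathlib's order of topologies) among all topologies on the algebraic direct sum which
are given by a family of seminorms (i.e. are locally convex vector space topologies) and whose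
restriction to every summand `E i` is the norm topology. -/
def IsDirectSumTopology (𝕜 : Type*) [RCLike 𝕜] (E : ℕ → Type*) [∀ n, NormedAddCommGroup (E n)]
    [∀ n, NormedSpace 𝕜 (E n)] (τ : TopologicalSpace (⨁ i, E i)) : Prop :=
  IsLeast {σ : TopologicalSpace (⨁ i, E i) |
    PolynormableSpace 𝕜 (⨁ i, E i) (topology := σ) ∧
    ∀ i, TopologicalSpace.induced (lof 𝕜 ℕ E i) σ = (inferInstance : TopologicalSpace (E i))} τ

section

variable {𝕜 : Type*} [RCLike 𝕜] {E : ℕ → Type*} [∀ n, NormedAddCommGroup (E n)]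
  [∀ n, NormedSpace 𝕜 (E n)]

theorem good_of_continuous (q : Seminorm 𝕜 (⨁ i, E i))
    (h : ∀ i, Continuous fun x : E i => q (lof 𝕜 ℕ E i x)) : Good q := by
  intro i
  obtain ⟨C, hC, h1⟩ := Seminorm.bound_of_continuous_normedSpace (q.comp (lof 𝕜 ℕ E i)) (h i)
  exact ⟨C, hC.le, fun x => h1 x⟩

theorem good_sup (q q' : Seminorm 𝕜 (⨁ i, E i)) (h : Good q) (h' : Good q') :
    Good (q ⊔ q') := by
  intro i
  obtain ⟨C, hC, h1⟩ := h i
  obtain ⟨C', hC', h1'⟩ := h' i
  refine ⟨max C C', hC.trans (le_max_left _ _), fun x => ?_⟩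
  rw [Seminorm.sup_apply]
  apply max_le
  · exact (h1 x).trans (mul_le_mul_of_nonneg_right (le_max_left _ _) (norm_nonneg _))
  · exact (h1' x).trans (mul_le_mul_of_nonneg_right (le_max_right _ _) (norm_nonneg _))

theorem good_bot : Good (⊥ : Seminorm 𝕜 (⨁ i, E i)) := by
  intro i
  exact ⟨0, le_rfl, fun x => by simp⟩

/-- the family of all seminorms bounded on the summands -/
def fam (𝕜 : Type*) [RCLike 𝕜] (E : ℕ → Type*) [∀ n, NormedAddCommGroup (E n)]
    [∀ n, NormedSpace 𝕜 (E n)] :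
    SeminormFamily 𝕜 (⨁ i, E i) {q : Seminorm 𝕜 (⨁ i, E i) // Good q} := fun q => q.1

theorem good_finset_sup (s : Finset {q : Seminorm 𝕜 (⨁ i, E i) // Good q}) :
    Good (s.sup (fam 𝕜 E)) :=
  Finset.sup_induction good_bot (fun a ha b hb => good_sup a b ha hb) (fun q _ => q.2)

instance : Nonempty {q : Seminorm 𝕜 (⨁ i, E i) // Good q} := ⟨⟨⊥, good_bot⟩⟩

/-- the topology defined by all seminorms bounded on the summands -/
@[reducible] def τ₀ (𝕜 : Type*) [RCLike 𝕜] (E : ℕ → Type*) [∀ n, NormedAddCommGroup (E n)]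
    [∀ n, NormedSpace 𝕜 (E n)] : TopologicalSpace (⨁ i, E i) :=
  (fam 𝕜 E).moduleFilterBasis.topology

theorem ws : WithSeminorms (topology := τ₀ 𝕜 E) (fam 𝕜 E) :=
  @WithSeminorms.mk _ _ _ _ _ _ (fam 𝕜 E) (τ₀ 𝕜 E) rfl

/-- the seminorm `x ↦ ‖x i‖` -/
theorem good_coord (i : ℕ) :
    Good ((normSeminorm 𝕜 (E i)).comp (DirectSum.component 𝕜 ℕ E i)) := by
  intro j
  refine ⟨1, zero_le_one, fun x => ?_⟩
  rw [Seminorm.comp_apply, coe_normSeminorm, one_mul]
  by_cases h : j = i
  · subst h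
    rw [DirectSum.component.lof_self]
  · rw [DirectSum.component.of]
    simp [h]

theorem isDirectSumTopology_τ₀ : IsDirectSumTopology 𝕜 E (τ₀ 𝕜 E) := by
  refine ⟨⟨?_, fun i => ?_⟩, ?_⟩
  · let _ : TopologicalSpace (⨁ i, E i) := τ₀ 𝕜 E
    have hws : WithSeminorms (fam 𝕜 E) := ws
    exact hws.toPolynormableSpace
  · let _ : TopologicalSpace (⨁ i, E i) := τ₀ 𝕜 E
    have hws : WithSeminorms (fam 𝕜 E) := ws
    apply le_antisymm
    · have hc : Continuous (DirectSum.component 𝕜 ℕ E i) := by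
        apply WithSeminorms.continuous_normedSpace_rng (E i) hws
        refine ⟨{⟨_, good_coord i⟩}, 1, ?_⟩
        rw [Finset.sup_singleton, one_smul]
        exact le_rfl
      have h1 : (τ₀ 𝕜 E) ≤ TopologicalSpace.induced (DirectSum.component 𝕜 ℕ E i) inferInstance :=
        continuous_iff_le_induced.mp hc
      have h2 := induced_mono (g := (lof 𝕜 ℕ E i : E i → (⨁ i, E i))) h1
      rw [induced_compose] at h2
      have h3 : (DirectSum.component 𝕜 ℕ E i : (⨁ i, E i) → E i) ∘ (lof 𝕜 ℕ E i) = id := by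
        funext x
        exact DirectSum.component.lof_self 𝕜 i x
      rw [h3, induced_id] at h2
      exact h2
    · rw [← continuous_iff_le_induced]
      apply WithSeminorms.continuous_normedSpace_dom (𝕝 := 𝕜) (E i) hws
      rintro ⟨q, hq⟩
      obtain ⟨C, hC, h⟩ := hq i
      refine ⟨⟨C, hC⟩, fun x => ?_⟩
      exact h x
  · rintro σ ⟨hσ, hσ2⟩
    rw [← continuous_id_iff_le]
    have hσws := @PolynormableSpace.withSeminorms 𝕜 (⨁ i, E i) _ _ _ σ hσ
    refine WithSeminorms.continuous_of_isBounded ws hσws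
      (LinearMap.id : (⨁ i, E i) →ₗ[𝕜] (⨁ i, E i)) ?_
    rintro ⟨q, hq⟩
    have hgood : Good q := by
      apply good_of_continuous
      intro i
      have h1 : Continuous[inferInstance, σ] (lof 𝕜 ℕ E i) := by
        rw [continuous_iff_le_induced, hσ2 i]
      exact hq.comp h1
    refine ⟨{⟨q, hgood⟩}, 1, ?_⟩
    rw [Finset.sup_singleton, one_smul]
    exact le_rfl

/-! ### a countable dense set -/

/-- finite combinations of the basis vectors with coefficients from a sequence -/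
noncomputable def val (e : ∀ i, ℕ → E i) (c : ℕ → 𝕜) (l : List (ℕ × ℕ × ℕ)) : ⨁ i, E i :=
  (l.map fun a => c a.2.2 • lof 𝕜 ℕ E a.1 (e a.1 a.2.1)).sum

/-- approximable vectors -/
def Approx (e : ∀ i, ℕ → E i) (c : ℕ → 𝕜) (x : ⨁ i, E i) : Prop :=
  ∀ q : Seminorm 𝕜 (⨁ i, E i), Good q → ∀ ε > 0, ∃ l, q (x - val e c l) < ε

theorem approx_zero (e : ∀ i, ℕ → E i) (c : ℕ → 𝕜) : Approx e c 0 := by
  intro q _ ε hε
  exact ⟨[], by simpa [val] using hε⟩

theorem approx_add (e : ∀ i, ℕ → E i) (c : ℕ → 𝕜) {x y : ⨁ i, E i} (hx : Approx e c x)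
    (hy : Approx e c y) : Approx e c (x + y) := by
  intro q hq ε hε
  obtain ⟨l, hl⟩ := hx q hq (ε / 2) (by positivity)
  obtain ⟨l', hl'⟩ := hy q hq (ε / 2) (by positivity)
  refine ⟨l ++ l', ?_⟩
  have h1 : val e c (l ++ l') = val e c l + val e c l' := by
    simp [val]
  rw [h1]
  have h2 : x + y - (val e c l + val e c l') = (x - val e c l) + (y - val e c l') := by abel
  rw [h2]
  exact (map_add_le_add q _ _).trans_lt (by linarith)

theorem approx_sum (e : ∀ i, ℕ → E i) (c : ℕ → 𝕜) {ι : Type*} (s : Finset ι) (g : ι → ⨁ i, E i)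
    (h : ∀ a ∈ s, Approx e c (g a)) : Approx e c (∑ a ∈ s, g a) :=
  Finset.sum_induction g (Approx e c) (fun _ _ => approx_add e c) (approx_zero e c) h

theorem approx_basis (e : ∀ i, ℕ → E i) (c : ℕ → 𝕜) (hc : DenseRange c) (a : 𝕜) (i j : ℕ) :
    Approx e c (a • lof 𝕜 ℕ E i (e i j)) := by
  intro q _ ε hε
  set v := lof 𝕜 ℕ E i (e i j) with hv
  obtain ⟨n, hn⟩ := hc.exists_dist_lt a (show 0 < ε / (q v + 1) by
    have := apply_nonneg q v; positivity)
  refine ⟨[(i, j, n)], ?_⟩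
  have h1 : val e c [(i, j, n)] = c n • v := by simp [val, hv]
  rw [h1, ← sub_smul, map_smul_eq_mul, ← dist_eq_norm]
  have h0 := apply_nonneg q v
  have h2 : dist a (c n) * q v ≤ dist a (c n) * (q v + 1) :=
    mul_le_mul_of_nonneg_left (by linarith) dist_nonneg
  have h3 : dist a (c n) * (q v + 1) < ε := by
    rwa [lt_div_iff₀ (by positivity)] at hn
  linarith

theorem approx_lof (e : ∀ i, ℕ → E i) (c : ℕ → 𝕜) (hc : DenseRange c)
    (he : ∀ i, Dense (Submodule.span 𝕜 (Set.range (e i)) : Set (E i))) (i : ℕ) (x : E i) :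
    Approx e c (lof 𝕜 ℕ E i x) := by
  intro q hq ε hε
  obtain ⟨C, hC0, hC⟩ := hq i
  obtain ⟨y, hy, hxy⟩ := Metric.dense_iff.mp (he i) x (ε / 2 / (C + 1)) (by positivity)
  obtain ⟨g, hg⟩ := (Finsupp.mem_span_range_iff_exists_finsupp).mp hxy
  have h1 : Approx e c (lof 𝕜 ℕ E i y) := by
    rw [← hg, Finsupp.sum, map_sum]
    apply approx_sum
    intro a _
    rw [map_smul]
    exact approx_basis e c hc _ _ _
  obtain ⟨l, hl⟩ := h1 q hq (ε / 2) (by positivity)
  refine ⟨l, ?_⟩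
  have h2 : lof 𝕜 ℕ E i x - val e c l = lof 𝕜 ℕ E i (x - y) + (lof 𝕜 ℕ E i y - val e c l) := by
    rw [map_sub]; abel
  rw [h2]
  have h3 : q (lof 𝕜 ℕ E i (x - y)) ≤ ε / 2 := by
    refine (hC _).trans ?_
    have h4 : ‖x - y‖ < ε / 2 / (C + 1) := by
      rw [← dist_eq_norm, dist_comm]; exact hy
    calc C * ‖x - y‖ ≤ (C + 1) * ‖x - y‖ := by gcongr; linarith
      _ ≤ (C + 1) * (ε / 2 / (C + 1)) := by gcongr
      _ = ε / 2 := by field_simp
  exact (map_add_le_add q _ _).trans_lt (by linarith)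

theorem approx_all (e : ∀ i, ℕ → E i) (c : ℕ → 𝕜) (hc : DenseRange c)
    (he : ∀ i, Dense (Submodule.span 𝕜 (Set.range (e i)) : Set (E i))) (x : ⨁ i, E i) :
    Approx e c x := by
  induction x using DirectSum.induction_on with
  | zero => exact approx_zero e c
  | of i x => exact approx_lof e c hc he i x
  | add x y hx hy => exact approx_add e c hx hy

theorem lift_val (T : (⨁ i, E i) →ₗ[𝕜] (⨁ i, E i)) (e : ∀ i, ℕ → E i) (c : ℕ → 𝕜)
    (h : ∀ i j, Lift T (lof 𝕜 ℕ E i (e i j))) (l : List (ℕ × ℕ × ℕ)) : Lift T (val e c l) := by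
  induction l with
  | nil => simpa [val] using Lift.zero
  | cons a l ih =>
    have : val e c (a :: l) = c a.2.2 • lof 𝕜 ℕ E a.1 (e a.1 a.2.1) + val e c l := by
      simp [val]
    rw [this]
    exact Lift.add ((h _ _).smul _) ih

end

/-- **Main theorem.** Let `E 0, E 1, ...` be separable infinite-dimensional Banach spaces over
`𝕜 = ℝ` or `ℂ`. The locally convex direct sum topology exists, it is Hausdorff, and for this
topology there is a continuous linear operator `T` on `⨁ i, E i` such that for every infinite set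
`B` of exponents some vector `x` (even one from the first summand) has a dense orbit
`{T ^ n x : n ∈ B}`: the operator is hereditarily hypercyclic. -/
theorem result (𝕜 : Type*) [RCLike 𝕜] (E : ℕ → Type*) [∀ n, NormedAddCommGroup (E n)]
    [∀ n, NormedSpace 𝕜 (E n)] [∀ n, CompleteSpace (E n)]
    [∀ n, TopologicalSpace.SeparableSpace (E n)] (hinf : ∀ n, ¬ FiniteDimensional 𝕜 (E n)) :
    (∃ τ, IsDirectSumTopology 𝕜 E τ) ∧
    ∀ τ : TopologicalSpace (⨁ i, E i), IsDirectSumTopology 𝕜 E τ → T2Space (⨁ i, E i) ∧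
      ∃ T : (⨁ i, E i) →L[𝕜] (⨁ i, E i), ∀ B : Set ℕ, B.Infinite →
        ∃ x : E 0, Dense {y : ⨁ i, E i | ∃ n ∈ B, (T ^ n) (lof 𝕜 ℕ E 0 x) = y} := by
  refine ⟨⟨τ₀ 𝕜 E, isDirectSumTopology_τ₀⟩, ?_⟩
  intro τ hτ
  obtain rfl : τ = τ₀ 𝕜 E := hτ.unique isDirectSumTopology_τ₀
  have hws : WithSeminorms (topology := τ₀ 𝕜 E) (fam 𝕜 E) := ws
  let _ : TopologicalSpace (⨁ i, E i) := τ₀ 𝕜 E
  have hgrp : IsTopologicalAddGroup (⨁ i, E i) := hws.topologicalAddGroup
  constructor
  · have hT1 : T1Space (⨁ i, E i) := by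
      apply WithSeminorms.T1_of_separating hws
      intro x hx
      obtain ⟨i, hi⟩ : ∃ i, x i ≠ 0 := by
        by_contra hcon
        push Not at hcon
        exact hx (DFinsupp.ext hcon)
      refine ⟨⟨_, good_coord i⟩, ?_⟩
      change ‖x i‖ ≠ 0
      exact norm_ne_zero_iff.mpr hi
    infer_instance
  · choose e f hef he hd using fun i => Q65.SB.exists_biorth (𝕜 := 𝕜) (X := E i) (hinf i)
    have hF : ∀ i j, 0 ≤ ‖f i j‖ := fun i j => norm_nonneg _
    obtain ⟨T, hTq, hTe⟩ := exists_op e f hef he nx (wt fun i j => ‖f i j‖)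
      (wt_nonneg hF) (wt_summable hF) (fun i => 2 * i + 3) (fun i j h => wt_bound h)
    have hTc : Continuous T := by
      refine WithSeminorms.continuous_of_isBounded hws hws T ?_
      rintro ⟨q, hq⟩
      refine ⟨{⟨q.comp T, hTq q hq⟩}, 1, ?_⟩
      rw [Finset.sup_singleton, one_smul]
      exact le_rfl
    refine ⟨⟨T, hTc⟩, fun B hB => ?_⟩
    have hlift : ∀ i j, Lift T (lof 𝕜 ℕ E i (e i j)) :=
      lift_basis T e (fun i j => ‖f i j‖) hF he hTe
    obtain ⟨L, hL⟩ := exists_surjective_nat (List (ℕ × ℕ × ℕ))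
    set c : ℕ → 𝕜 := TopologicalSpace.denseSeq 𝕜 with hc
    have hcd : DenseRange c := TopologicalSpace.denseRange_denseSeq 𝕜
    obtain ⟨x, hx⟩ := criterion T hTq (fun a => val e c (L a))
      (fun x q hq ε hε => by
        obtain ⟨l, hl⟩ := approx_all e c hcd hd x q hq ε hε
        obtain ⟨a, rfl⟩ := hL l
        exact ⟨a, hl⟩)
      (fun a => lift_val T e c hlift _) B hB
    refine ⟨x, fun y => ?_⟩
    rw [mem_closure_iff_nhds_basis (WithSeminorms.hasBasis_ball hws)]
    rintro ⟨s, r⟩ hr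
    obtain ⟨n, hn, hn2⟩ := hx y _ (good_finset_sup s) r hr
    refine ⟨(T ^ n) (lof 𝕜 ℕ E 0 x), ⟨n, hn, ?_⟩, ?_⟩
    · have : ∀ (n : ℕ) (z : ⨁ i, E i), ((⟨T, hTc⟩ : (⨁ i, E i) →L[𝕜] (⨁ i, E i)) ^ n) z = (T ^ n) z := by
        intro n
        induction n with
        | zero => intro z; rfl
        | succ n ih =>
          intro z
          rw [pow_succ, pow_succ, mul_apply_eq_comp, Module.End.mul_apply, ih]
          rfl
      exact this n _
    · rw [Seminorm.mem_ball]
      exact hn2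

end Pool.Agent.Results.MP_1b62a1_an.Hereditary
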